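import Mathlib

/-!
# Regular colourings of complete graphs
-/

set_option autoImplicit false

namespace Pool.Agent.Y469.TR

/-- distance on the cycle with `N` vertices -/
def cd (N x y : ℕ) : ℕ := min ((y + N - x) % N) ((x + N - y) % N)

theorem cd_comm (N x y : ℕ) : cd N x y = cd N y x := min_comm _ _

theorem mod_sum {N x y : ℕ} (hx : x < N) (hy : y < N) (h : x ≠ y) :
    (y + N - x) % N + (x + N - y) % N = N ∧ 1 ≤ (y + N - x) % N ∧ 1 ≤ (x + N - y) % N := by
  rcases lt_or_gt_of_ne h with h | h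
  · have h1 : (y + N - x) % N = y - x := by
      rw [show y + N - x = (y - x) + N by omega, Nat.add_mod_right, Nat.mod_eq_of_lt (by omega)]
    have h2 : (x + N - y) % N = x + N - y := Nat.mod_eq_of_lt (by omega)
    omega
  · have h1 : (x + N - y) % N = x - y := by
      rw [show x + N - y = (x - y) + N by omega, Nat.add_mod_right, Nat.mod_eq_of_lt (by omega)]
    have h2 : (y + N - x) % N = y + N - x := Nat.mod_eq_of_lt (by omega)
    omega

theorem mod_inj {N x y z : ℕ} (hx : x < N) (hy : y < N) (hz : z < N)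
    (h : (y + N - x) % N = (z + N - x) % N) : y = z := by
  have key : ∀ y, y < N → (x ≤ y ∧ (y + N - x) % N = y - x) ∨
      (y < x ∧ (y + N - x) % N = y + N - x) := by
    intro y hy
    rcases le_or_gt x y with h1 | h1
    · left
      refine ⟨h1, ?_⟩
      rw [show y + N - x = (y - x) + N by omega, Nat.add_mod_right, Nat.mod_eq_of_lt (by omega)]
    · right
      exact ⟨h1, Nat.mod_eq_of_lt (by omega)⟩
  rcases key y hy with ⟨h1, h2⟩ | ⟨h1, h2⟩ <;> rcases key z hz with ⟨h3, h4⟩ | ⟨h3, h4⟩ <;> omega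

/-- `K_N`, `N = 2 t k + 1`, is a union of `k` regular graphs of degree `2 t`. -/
theorem circ (k t : ℕ) (hk : 1 ≤ k) (ht : 1 ≤ t) : ∃ c : Sym2 (Fin (k * (2 * t) + 1)) → Fin k,
    ∀ (x : Fin (k * (2 * t) + 1)) (i : Fin k), (Finset.univ.filter fun y => y ≠ x ∧
      c s(x, y) = i).card ≤ 2 * t := by
  set N := k * (2 * t) + 1 with hN
  have hkpos : 0 < k := hk
  refine ⟨Sym2.lift ⟨fun x y => ⟨((cd N x.1 y.1 - 1) / t) % k, Nat.mod_lt _ hkpos⟩, ?_⟩, ?_⟩
  · intro x y
    simp only [cd_comm N x.1 y.1]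
  · intro x i
    let S : Finset ℕ := Finset.Icc (i.1 * t + 1) (i.1 * t + t) ∪
      Finset.Icc (N - i.1 * t - t) (N - i.1 * t - 1)
    have hS : S.card ≤ 2 * t := by
      refine (Finset.card_union_le _ _).trans ?_
      rw [Nat.card_Icc, Nat.card_Icc]
      omega
    refine le_trans ?_ hS
    refine Finset.card_le_card_of_injOn (fun y => (y.1 + N - x.1) % N) ?_ ?_
    · intro y hy
      have hy' := (Finset.mem_filter.1 (Finset.mem_coe.1 hy)).2
      obtain ⟨hne, hc⟩ := hy'
      have hne' : x.1 ≠ y.1 := fun h => hne (Fin.ext h.symm)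
      obtain ⟨h1, h2, h3⟩ := mod_sum x.2 y.2 hne'
      simp only [Sym2.lift_mk] at hc
      have hc' : ((cd N x.1 y.1 - 1) / t) % k = i.1 := congrArg Fin.val hc
      have h4 : cd N x.1 y.1 ≤ k * t ∧ 1 ≤ cd N x.1 y.1 := by
        unfold cd
        have : N = 2 * (k * t) + 1 := by rw [hN]; ring
        omega
      have h5 : (cd N x.1 y.1 - 1) / t < k := by
        rw [Nat.div_lt_iff_lt_mul (by omega)]
        omega
      rw [Nat.mod_eq_of_lt h5] at hc'
      have h6 : i.1 * t ≤ cd N x.1 y.1 - 1 := by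
        rw [← hc']
        exact Nat.div_mul_le_self _ _
      have h7 : cd N x.1 y.1 - 1 < i.1 * t + t := by
        have := Nat.lt_div_mul_add (a := cd N x.1 y.1 - 1) (b := t) (by omega)
        rw [hc'] at this
        exact this
      show (y.1 + N - x.1) % N ∈ (S : Set ℕ)
      rw [Finset.mem_coe, Finset.mem_union, Finset.mem_Icc, Finset.mem_Icc]
      have h8 : cd N x.1 y.1 = min ((y.1 + N - x.1) % N) ((x.1 + N - y.1) % N) := rfl
      rcases min_choice ((y.1 + N - x.1) % N) ((x.1 + N - y.1) % N) with h9 | h9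
      · left
        rw [h9] at h8
        omega
      · right
        rw [h9] at h8
        omega
    · intro y _ z _ h
      exact Fin.ext (mod_inj x.2 y.2 z.2 h)

/-- label of the pair `x, y` in a decomposition of `K_{n+1}` into perfect matchings, `n` odd -/
def lab (n x y : ℕ) : ℕ := if x = n then (y + y) % n else if y = n then (x + x) % n else (x + y) % n

theorem add_inj {n a y z : ℕ} (hy : y < n) (hz : z < n) (h : (a + y) % n = (a + z) % n) :
    y = z := by
  have h1 : y % n = z % n := Nat.ModEq.add_left_cancel' a h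
  rwa [Nat.mod_eq_of_lt hy, Nat.mod_eq_of_lt hz] at h1

theorem dbl_inj {n y z : ℕ} (hn : Odd n) (hy : y < n) (hz : z < n)
    (h : (y + y) % n = (z + z) % n) : y = z := by
  have h1 : 2 * y ≡ 2 * z [MOD n] := by
    rw [two_mul, two_mul]; exact h
  have h2 : y ≡ z [MOD n] :=
    Nat.ModEq.cancel_left_of_coprime (Nat.coprime_two_right.2 hn) h1
  have h3 : y % n = z % n := h2
  rwa [Nat.mod_eq_of_lt hy, Nat.mod_eq_of_lt hz] at h3

theorem lab_comm (n x y : ℕ) : lab n x y = lab n y x := by
  unfold lab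
  split_ifs with h1 h2 h3
  · rw [h1, h2]
  · rfl
  · rfl
  · rw [add_comm]

/-- `K_{k d + 1}`, `k d` odd, is a union of `k` regular graphs of degree `d`. -/
theorem rr (k d : ℕ) (hkd : Odd (k * d)) : ∃ c : Sym2 (Fin (k * d + 1)) → Fin k,
    ∀ (x : Fin (k * d + 1)) (i : Fin k), (Finset.univ.filter fun y => y ≠ x ∧
      c s(x, y) = i).card ≤ d := by
  have hpos : 0 < k * d := hkd.pos
  have hk : 0 < k := Nat.pos_of_mul_pos_right hpos
  have hd : 0 < d := Nat.pos_of_mul_pos_left hpos
  set n := k * d with hn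
  have hlt : ∀ x y, lab n x y < n := by
    intro x y
    unfold lab
    split_ifs <;> exact Nat.mod_lt _ hpos
  refine ⟨Sym2.lift ⟨fun x y => ⟨lab n x.1 y.1 / d, ?_⟩, ?_⟩, ?_⟩
  · rw [Nat.div_lt_iff_lt_mul hd]
    exact hlt _ _
  · intro x y
    simp only [lab_comm n x.1 y.1]
  · intro x i
    have hS : (Finset.Ico (i.1 * d) (i.1 * d + d)).card ≤ d := by
      rw [Nat.card_Ico]; omega
    refine le_trans ?_ hS
    refine Finset.card_le_card_of_injOn (fun y => lab n x.1 y.1) ?_ ?_
    · intro y hy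
      obtain ⟨hne, hc⟩ := (Finset.mem_filter.1 (Finset.mem_coe.1 hy)).2
      simp only [Sym2.lift_mk] at hc
      have hc' : lab n x.1 y.1 / d = i.1 := congrArg Fin.val hc
      show _ ∈ ((Finset.Ico _ _ : Finset ℕ) : Set ℕ)
      rw [Finset.mem_coe, Finset.mem_Ico, ← hc']
      exact ⟨Nat.div_mul_le_self _ _, Nat.lt_div_mul_add hd⟩
    · intro y hy z hz h
      have hy1 := (Finset.mem_filter.1 (Finset.mem_coe.1 hy)).2.1
      have hz1 := (Finset.mem_filter.1 (Finset.mem_coe.1 hz)).2.1
      have hy2 : y.1 ≠ x.1 := fun h => hy1 (Fin.ext h)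
      have hz2 : z.1 ≠ x.1 := fun h => hz1 (Fin.ext h)
      have hy3 := y.2
      have hz3 := z.2
      have hx3 := x.2
      apply Fin.ext
      simp only [lab] at h
      split_ifs at h with h1 h2 h3 h4
      · exact dbl_inj hkd (by omega) (by omega) h
      · omega
      · exact absurd (add_inj (by omega) (by omega) h).symm hz2
      · exact absurd (add_inj (by omega) (by omega) h) hy2
      · exact add_inj (by omega) (by omega) h

end Pool.Agent.Y469.TR
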