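import Pool.Agent.Helper903.ES.Main

/-!
# Colourings with few colours at the average vertex and trees

The colour classes are compared with the Erdos-Sos theorem on the sets of the vertices at which
the colours occur.
-/

set_option autoImplicit false

namespace Pool.Agent.Y469.TR

open Finset

/-- The colour `i` occurs at the vertex `v`, in the colouring `c` of the edges of `G`. -/
def Sees {V C : Type*} (G : SimpleGraph V) (c : Sym2 V → C) (v : V) (i : C) : Prop :=
  ∃ w, G.Adj v w ∧ c s(v, w) = i

/-- The edges of `G` of colour `i` contain a copy of every forest with `m` vertices. -/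
def Universal {V C : Type*} (G : SimpleGraph V) (c : Sym2 V → C) (i : C) (m : ℕ) : Prop :=
  ∀ F : SimpleGraph (Fin m), F.IsAcyclic →
    ∃ f : Fin m ↪ V, ∀ a b, F.Adj a b → G.Adj (f a) (f b) ∧ c s(f a, f b) = i

/-- the edges of colour `i` on the vertices at which the colour occurs -/
def cls {V C : Type*} (G : SimpleGraph V) (c : Sym2 V → C) (i : C) :
    SimpleGraph {v // Sees G c v i} where
  Adj x y := G.Adj x.1 y.1 ∧ c s(x.1, y.1) = i
  symm := ⟨fun x y h => ⟨h.1.symm, by rw [Sym2.eq_swap]; exact h.2⟩⟩
  loopless := ⟨fun x h => G.irrefl h.1⟩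

open Classical in
theorem master {V C : Type*} [Fintype V] [Fintype C] (G : SimpleGraph V) (c : Sym2 V → C)
    (m : C → ℕ) (hm : ∀ i, 2 ≤ m i)
    (h : ∑ v : V, ∑ i with Sees G c v i, (m i - 2) < 2 * G.edgeFinset.card) :
    ∃ i, Universal G c i (m i) := by
  have hdeg : ∀ i, 2 * (cls G c i).edgeFinset.card =
      ∑ v : V, #{w | G.Adj v w ∧ c s(v, w) = i} := by
    intro i
    rw [← SimpleGraph.sum_degrees_eq_twice_card_edges]
    have h1 : ∀ x : {v // Sees G c v i}, (cls G c i).degree x =
        #{w | G.Adj x.1 w ∧ c s(x.1, w) = i} := by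
      intro x
      rw [← SimpleGraph.card_neighborFinset_eq_degree]
      refine Finset.card_bij (fun y _ => y.1) ?_ ?_ ?_
      · intro y hy
        rw [SimpleGraph.mem_neighborFinset] at hy
        exact Finset.mem_filter.2 ⟨Finset.mem_univ _, hy⟩
      · intro y _ z _ hyz
        exact Subtype.ext hyz
      · intro w hw
        obtain ⟨-, h2, h3⟩ := Finset.mem_filter.1 hw
        refine ⟨⟨w, x.1, h2.symm, ?_⟩, ?_, rfl⟩
        · rw [Sym2.eq_swap]; exact h3
        · rw [SimpleGraph.mem_neighborFinset]
          exact ⟨h2, h3⟩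
    rw [Finset.sum_congr rfl fun x _ => h1 x]
    have h2 := Finset.sum_subtype (Finset.univ.filter (fun v => Sees G c v i))
      (p := fun v => Sees G c v i) (F := inferInstance) (by simp) (fun v => #{w | G.Adj v w ∧ c s(v, w) = i})
    rw [← h2]
    refine Finset.sum_subset (Finset.filter_subset _ _) fun v _ hv => ?_
    rw [Finset.card_eq_zero, Finset.filter_eq_empty_iff]
    intro w _ hw
    exact hv (Finset.mem_filter.2 ⟨Finset.mem_univ _, w, hw⟩)
  have hcount : ∀ i, ∑ v : V, (if Sees G c v i then (m i - 2) else 0) =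
      (m i - 2) * Fintype.card {v // Sees G c v i} := by
    intro i
    rw [← Finset.sum_filter, Finset.sum_const, smul_eq_mul, mul_comm, Fintype.card_subtype]
  have htot : ∑ i, 2 * (cls G c i).edgeFinset.card = 2 * G.edgeFinset.card := by
    rw [← SimpleGraph.sum_degrees_eq_twice_card_edges, Finset.sum_congr rfl fun i _ => hdeg i,
      Finset.sum_comm]
    refine Finset.sum_congr rfl fun v _ => ?_
    rw [← SimpleGraph.card_neighborFinset_eq_degree,
      Finset.card_eq_sum_card_fiberwise (f := fun w => c s(v, w)) (t := Finset.univ)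
        (fun _ _ => by simp)]
    refine Finset.sum_congr rfl fun i _ => ?_
    congr 1
    ext w
    simp [SimpleGraph.mem_neighborFinset]
  have hex : ∃ i, (m i - 1 - 1) * Fintype.card {v // Sees G c v i} <
      2 * (cls G c i).edgeFinset.card := by
    by_contra hcon
    push Not at hcon
    have h1 : ∑ i, 2 * (cls G c i).edgeFinset.card ≤
        ∑ i, (m i - 2) * Fintype.card {v // Sees G c v i} := by
      refine Finset.sum_le_sum fun i _ => ?_
      have := hcon i
      rwa [Nat.sub_sub] at this
    rw [htot, ← Finset.sum_congr rfl fun i _ => hcount i, Finset.sum_comm] at h1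
    refine absurd h (not_lt.2 (h1.trans (le_of_eq ?_)))
    refine Finset.sum_congr rfl fun v _ => ?_
    rw [Finset.sum_filter]
  obtain ⟨i, hi⟩ := hex
  refine ⟨i, fun F hF => ?_⟩
  have hne : Nonempty (Fin (m i)) := ⟨⟨0, by have := hm i; omega⟩⟩
  obtain ⟨T, hT1, -, hT2⟩ := (SimpleGraph.connected_top (V := Fin (m i))).exists_isTree_le_of_le_of_isAcyclic
    (le_top : F ≤ ⊤) hF
  obtain ⟨f, hf⟩ := ES903.erdos_sos (cls G c i) (m i - 1) hi T hT2
    (by rw [Fintype.card_fin]; have := hm i; omega)
  exact ⟨f.trans (Function.Embedding.subtype _), fun a b hab => hf a b (hT1 hab)⟩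

end Pool.Agent.Y469.TR
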